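import Pool.Agent.Q322.SPM.Main

/-!
# Shortest Path Most Vital Edges is W[1]-hard for the number of deleted edges
-/

namespace Pool.Agent.Results.MP_40aef2_lc.BudgetW1

open Pool.Agent.NPC Pool.Agent.H633R2 Pool.Agent.Q322.SPM

/-- Shortest Path Most Vital Edges, parameterized by the number `k` of deletions, is W[1]-hard, and
it is so already if all edges have length one; hence if it were fixed-parameter tractable, then all
problems in W[1] would be. -/
theorem result :
    W1Hard (fun x : List (List ℕ) × ℕ × ℕ × ℕ × ℕ => x.2.2.2.1) SPMVE ∧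
    W1Hard (fun x : List (List Bool) × ℕ × ℕ × ℕ × ℕ => x.2.2.2.1) SPMVE1 ∧
    (IsFpt (fun x : List (List ℕ) × ℕ × ℕ × ℕ × ℕ => x.2.2.2.1) SPMVE →
      ∀ (α : Type) [TEnc α] (κ : α → ℕ) (P : α → Prop), InW1 κ P → IsFpt κ P) :=
  ⟨w1_len, w1_one, fun h _ _ _ _ hP => w1_len.collapse h hP⟩

end Pool.Agent.Results.MP_40aef2_lc.BudgetW1
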